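import Mathlib

/-!
The psi-descent of the minimal cell reduction (helper38): in a finite set with a symmetric
zero-one matrix in which every induced P4 `a - b - c - d` has a lower root for `d` and an upper
root for `b`, some induced P4 has no bad vertex.
-/

namespace Pool.Agent.H38.P3

set_option linter.unusedSectionVars false

variable {X : Type} [Fintype X] [DecidableEq X]

/-- Induced path `a - b - c - d` on four different vertices. -/
def IsP4 (M : X → X → ZMod 2) (a b c d : X) : Prop :=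
  (a ≠ b ∧ a ≠ c ∧ a ≠ d ∧ b ≠ c ∧ b ≠ d ∧ c ≠ d) ∧
  M a b = 1 ∧ M b c = 1 ∧ M c d = 1 ∧ M a c = 0 ∧ M a d = 0 ∧ M b d = 0

/-- `w` sees exactly one of `b, c` and exactly one of `a, d`. -/
def Bad (M : X → X → ZMod 2) (a b c d w : X) : Prop :=
  M w b ≠ M w c ∧ M w a ≠ M w d

theorem z2 (x : ZMod 2) : x = 0 ∨ x = 1 := by
  revert x; decide

theorem z2' {x : ZMod 2} (h : x ≠ 0) : x = 1 := (z2 x).resolve_left h

theorem z2'' {x : ZMod 2} (h : x ≠ 1) : x = 0 := (z2 x).resolve_right h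

theorem IsP4.rev {M : X → X → ZMod 2} (hs : ∀ x y, M x y = M y x) {a b c d : X}
    (h : IsP4 M a b c d) : IsP4 M d c b a := by
  obtain ⟨⟨h1, h2, h3, h4, h5, h6⟩, e1, e2, e3, e4, e5, e6⟩ := h
  exact ⟨⟨h6.symm, h5.symm, h3.symm, h4.symm, h2.symm, h1.symm⟩,
    (hs _ _).trans e3, (hs _ _).trans e2, (hs _ _).trans e1, (hs _ _).trans e6,
    (hs _ _).trans e5, (hs _ _).trans e4⟩

/-- Adjacency alone makes the vertices different (for `a - b - c - d`, symmetric `M`). -/
theorem isP4_of {M : X → X → ZMod 2} (hs : ∀ x y, M x y = M y x) {a b c d : X}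
    (e1 : M a b = 1) (e2 : M b c = 1) (e3 : M c d = 1) (e4 : M a c = 0) (e5 : M a d = 0)
    (e6 : M b d = 0) : IsP4 M a b c d := by
  have h01 : (0 : ZMod 2) ≠ 1 := by decide
  refine ⟨⟨?_, ?_, ?_, ?_, ?_, ?_⟩, e1, e2, e3, e4, e5, e6⟩
  · rintro rfl; exact h01 (e4.symm.trans e2)
  · rintro rfl
    -- a = c: then `M a d = 0` and `M a d = 1`
    exact h01 (e5.symm.trans e3)
  · rintro rfl
    -- a = d: `M b a = 0` and `M a b = 1`
    exact h01 ((e6.symm.trans (hs _ _)).trans e1)
  · rintro rfl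
    -- b = c: `M a b = 1`, `M a b = 0`
    exact h01 (e4.symm.trans e1)
  · rintro rfl
    -- b = d: `M a b = 0`, `M a b = 1`
    exact h01 (e5.symm.trans e1)
  · rintro rfl
    -- c = d: `M b c = 0`, `M b c = 1`
    exact h01 (e6.symm.trans e2)

/-- `r` is a lower root for the end `d` of `a - b - c - d`. -/
def Low (M : X → X → ZMod 2) (a b c d r : X) : Prop :=
  M r c = 1 ∧ M r a = 0 ∧ M r b = 0 ∧ M r r = 0 ∧
  (∀ x, M x c = 1 → M x a = 0 → M x b = 0 → M r x = 0) ∧
  (∀ x, M r x = 1 → M d x = 1)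

/-- `r` is an upper root for the middle `b` of `a - b - c - d`. -/
def Upp (M : X → X → ZMod 2) (a b c d r : X) : Prop :=
  M r a = 1 ∧ M r c = 1 ∧ M r d = 0 ∧ M r r = 1 ∧
  (∀ x, M x a = 1 → M x c = 1 → M x d = 0 → M r x = 1) ∧
  (∀ x, M b x = 1 → M r x = 1)

/-- The degree. -/
def dg (M : X → X → ZMod 2) (x : X) : ℕ := (Finset.univ.filter fun y => M x y = 1).card

theorem dg_le {M : X → X → ZMod 2} {x y : X} (h : ∀ z, M x z = 1 → M y z = 1) :
    dg M x ≤ dg M y :=
  Finset.card_le_card fun z hz => by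
    simp only [Finset.mem_filter, Finset.mem_univ, true_and] at hz ⊢
    exact h z hz

theorem dg_lt {M : X → X → ZMod 2} {x y : X} (h : ∀ z, M x z = 1 → M y z = 1) {w : X}
    (h0 : M x w = 0) (h1 : M y w = 1) : dg M x < dg M y := by
  apply Finset.card_lt_card
  rw [Finset.ssubset_iff_of_subset (fun z hz => by
    simp only [Finset.mem_filter, Finset.mem_univ, true_and] at hz ⊢
    exact h z hz)]
  refine ⟨w, by simp [h1], ?_⟩
  simp only [Finset.mem_filter, Finset.mem_univ, true_and]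
  rw [h0]; decide

/-- The potential, shifted to be a natural number. -/
def psi (M : X → X → ZMod 2) (a b c d : X) : ℕ :=
  dg M a + dg M d + ((Fintype.card X - dg M b) + (Fintype.card X - dg M c))

theorem dg_card (M : X → X → ZMod 2) (x : X) : dg M x ≤ Fintype.card X :=
  Finset.card_le_univ _

/-- **psi-descent.** -/
theorem exists_good (M : X → X → ZMod 2) (hs : ∀ x y, M x y = M y x)
    (hlow : ∀ a b c d, IsP4 M a b c d → ∃ r, Low M a b c d r)
    (hupp : ∀ a b c d, IsP4 M a b c d → ∃ r, Upp M a b c d r)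
    (hP : ∃ a b c d, IsP4 M a b c d) :
    ∃ a b c d, IsP4 M a b c d ∧ ∀ w, ¬ Bad M a b c d w := by
  classical
  -- choose a P4 of minimal potential
  obtain ⟨⟨a, b, c, d⟩, hq, hmin⟩ :
      ∃ q : X × X × X × X, IsP4 M q.1 q.2.1 q.2.2.1 q.2.2.2 ∧
        ∀ p : X × X × X × X, IsP4 M p.1 p.2.1 p.2.2.1 p.2.2.2 →
          psi M q.1 q.2.1 q.2.2.1 q.2.2.2 ≤ psi M p.1 p.2.1 p.2.2.1 p.2.2.2 := by
    obtain ⟨a, b, c, d, h⟩ := hP
    have hne : (Finset.univ.filter fun q : X × X × X × X =>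
        IsP4 M q.1 q.2.1 q.2.2.1 q.2.2.2).Nonempty := ⟨(a, b, c, d), by simpa using h⟩
    obtain ⟨q, hq, hm⟩ := Finset.exists_min_image _
      (fun q : X × X × X × X => psi M q.1 q.2.1 q.2.2.1 q.2.2.2) hne
    refine ⟨q, by simpa using hq, fun p hp => hm p (by simpa using hp)⟩
  simp only at hq hmin
  -- the end `d`, in the form needed for both ends
  have key_low : ∀ a b c d, IsP4 M a b c d →
      (∀ p : X × X × X × X, IsP4 M p.1 p.2.1 p.2.2.1 p.2.2.2 →
          psi M a b c d ≤ psi M p.1 p.2.1 p.2.2.1 p.2.2.2) →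
      ∀ w, M w c = 1 → M w a = 0 → M w b = 0 → M w d = 0 := by
    intro a b c d h hm w hwc hwa hwb
    obtain ⟨r, hrc, hra, hrb, hrr, hr0, hr1⟩ := hlow a b c d h
    by_contra hwd
    have hwd : M w d = 1 := z2' hwd
    have hrw : M r w = 0 := hr0 w hwc hwa hwb
    have hlt : dg M r < dg M d := dg_lt hr1 hrw ((hs _ _).trans hwd)
    have hP' : IsP4 M a b c r := isP4_of hs h.2.1 h.2.2.1 ((hs _ _).trans hrc) h.2.2.2.2.1
      ((hs _ _).trans hra) ((hs _ _).trans hrb)
    have := hm (a, b, c, r) hP'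
    simp only [psi] at this
    omega
  have key_upp : ∀ a b c d, IsP4 M a b c d →
      (∀ p : X × X × X × X, IsP4 M p.1 p.2.1 p.2.2.1 p.2.2.2 →
          psi M a b c d ≤ psi M p.1 p.2.1 p.2.2.1 p.2.2.2) →
      ∀ w, M w a = 1 → M w c = 1 → M w d = 0 → M w b = 1 := by
    intro a b c d h hm w hwa hwc hwd
    obtain ⟨r, hra, hrc, hrd, hrr, hr0, hr1⟩ := hupp a b c d h
    by_contra hwb
    have hwb : M w b = 0 := z2'' hwb
    have hrw : M r w = 1 := hr0 w hwa hwc hwd
    have hlt : dg M b < dg M r := dg_lt hr1 ((hs _ _).trans hwb) hrw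
    have hP' : IsP4 M a r c d := isP4_of hs ((hs _ _).trans hra) hrc h.2.2.2.1
      h.2.2.2.2.1 h.2.2.2.2.2.1 hrd
    have := hm (a, r, c, d) hP'
    simp only [psi] at this
    have h1 := dg_card M b
    have h2 := dg_card M r
    omega
  have hrev : ∀ p : X × X × X × X, IsP4 M p.1 p.2.1 p.2.2.1 p.2.2.2 →
      psi M d c b a ≤ psi M p.1 p.2.1 p.2.2.1 p.2.2.2 := by
    intro p hp
    have := hmin p hp
    simp only [psi] at this ⊢
    omega
  refine ⟨a, b, c, d, hq, ?_⟩
  rintro w ⟨hbc, had⟩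
  have hq' := hq.rev hs
  rcases z2 (M w b) with hb | hb <;> rcases z2 (M w a) with ha | ha
  · -- `w` sees neither `a` nor `b`: it sees `c` and `d`
    have hc : M w c = 1 := z2' fun h => hbc (hb.trans h.symm)
    have hd : M w d = 1 := z2' fun h => had (ha.trans h.symm)
    exact absurd (key_low a b c d hq hmin w hc ha hb) (by rw [hd]; decide)
  · -- `w` sees `a`, not `b`: it sees `c`, not `d`
    have hc : M w c = 1 := z2' fun h => hbc (hb.trans h.symm)
    have hd : M w d = 0 := z2'' fun h => had (ha.trans h.symm)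
    exact absurd (key_upp a b c d hq hmin w ha hc hd) (by rw [hb]; decide)
  · -- `w` sees `b`, not `a`: it sees `d`, not `c`
    have hc : M w c = 0 := z2'' fun h => hbc (hb.trans h.symm)
    have hd : M w d = 1 := z2' fun h => had (ha.trans h.symm)
    exact absurd (key_upp d c b a hq' hrev w hd hb ha) (by rw [hc]; decide)
  · -- `w` sees `a` and `b`, not `c`, not `d`
    have hc : M w c = 0 := z2'' fun h => hbc (hb.trans h.symm)
    have hd : M w d = 0 := z2'' fun h => had (ha.trans h.symm)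
    exact absurd (key_low d c b a hq' hrev w hb hd hc) (by rw [ha]; decide)

end Pool.Agent.H38.P3
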