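import Mathlib
import Pool.Agent.H38.P3.Psi

/-!
Seinsche's partition for sets without an induced P4, and Lemma R: a nonempty set without induced
P4 that contains midpoints of its closed pairs has a root (helper38, after helper68 and helper3).
-/

namespace Pool.Agent.H38.P3

set_option linter.unusedSectionVars false

variable {X : Type} [Fintype X] [DecidableEq X]

/-- The complement. -/
def co (M : X → X → ZMod 2) : X → X → ZMod 2 := fun x y => 1 + M x y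

theorem co_co (M : X → X → ZMod 2) : co (co M) = M := by
  funext x y
  have : ∀ m : ZMod 2, 1 + (1 + m) = m := by decide
  exact this _

theorem co_one {M : X → X → ZMod 2} {x y : X} : co M x y = 1 ↔ M x y = 0 := by
  have : ∀ m : ZMod 2, 1 + m = 1 ↔ m = 0 := by decide
  exact this _

theorem co_zero {M : X → X → ZMod 2} {x y : X} : co M x y = 0 ↔ M x y = 1 := by
  have : ∀ m : ZMod 2, 1 + m = 0 ↔ m = 1 := by decide
  exact this _

theorem co_eq {M : X → X → ZMod 2} {x y z w : X} : co M x y = co M z w ↔ M x y = M z w := by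
  simp [co]

theorem co_symm {M : X → X → ZMod 2} (hs : ∀ x y, M x y = M y x) (x y : X) :
    co M x y = co M y x := co_eq.2 (hs x y)

theorem IsP4.co {M : X → X → ZMod 2} (hs : ∀ x y, M x y = M y x) {a b c d : X}
    (h : IsP4 M a b c d) : IsP4 (co M) c a d b := by
  obtain ⟨-, e1, e2, e3, e4, e5, e6⟩ := h
  exact isP4_of (co_symm hs) (co_one.2 ((hs _ _).trans e4)) (co_one.2 e5)
    (co_one.2 ((hs _ _).trans e6)) (co_zero.2 e3) (co_zero.2 ((hs _ _).trans e2)) (co_zero.2 e1)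

theorem IsP4.of_co {M : X → X → ZMod 2} (hs : ∀ x y, M x y = M y x) {a b c d : X}
    (h : IsP4 (P3.co M) a b c d) : IsP4 M c a d b := by
  have := h.co (co_symm hs)
  rwa [co_co] at this

/-- No induced P4 inside `Y`. -/
def Free (M : X → X → ZMod 2) (Y : Finset X) : Prop :=
  ∀ a ∈ Y, ∀ b ∈ Y, ∀ c ∈ Y, ∀ d ∈ Y, ¬ IsP4 M a b c d

theorem Free.co {M : X → X → ZMod 2} (hs : ∀ x y, M x y = M y x) {Y : Finset X}
    (h : Free M Y) : Free (co M) Y :=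
  fun a ha b hb c hc d hd hP => h c hc a ha d hd b hb (hP.of_co hs)

theorem Free.mono {M : X → X → ZMod 2} {Y Z : Finset X} (h : Free M Y) (hZ : Z ⊆ Y) : Free M Z :=
  fun a ha b hb c hc d hd => h a (hZ ha) b (hZ hb) c (hZ hc) d (hZ hd)

/-- A nontrivial partition of `Y` with constant `M` between the parts. -/
def Split (M : X → X → ZMod 2) (Y : Finset X) : Prop :=
  ∃ (P : X → Prop) (s : ZMod 2), (∃ x ∈ Y, P x) ∧ (∃ y ∈ Y, ¬ P y) ∧
    ∀ x ∈ Y, ∀ y ∈ Y, P x → ¬ P y → M x y = s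

theorem split_of_co {M : X → X → ZMod 2} {Y : Finset X} (h : Split (co M) Y) : Split M Y := by
  obtain ⟨P, s, h1, h2, h3⟩ := h
  refine ⟨P, 1 + s, h1, h2, fun x hx y hy hp hn => ?_⟩
  have := h3 x hx y hy hp hn
  rw [← this]
  have : ∀ m : ZMod 2, m = 1 + (1 + m) := by decide
  exact this _

/-- One case of the step, used for `P` and for its complement. -/
theorem step_aux {M : X → X → ZMod 2} (hs : ∀ x y, M x y = M y x) {Y : Finset X} {v : X}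
    (hf : Free M Y) (hv : v ∈ Y) (P : X → Prop)
    (h0 : ∀ x ∈ Y, ∀ y ∈ Y, x ≠ v → y ≠ v → P x → ¬ P y → M x y = 0)
    {b : X} (hb : b ∈ Y) (hbv : b ≠ v) (hPb : ¬ P b) (hvb : M v b = 1)
    {a : X} (ha : a ∈ Y) (hav : a ≠ v) (hPa : P a) (hva : M v a = 0) : Split M Y := by
  classical
  by_cases hE : ∃ x ∈ Y, ∃ y ∈ Y, x ≠ v ∧ y ≠ v ∧ P x ∧ P y ∧ M v x = 0 ∧ M v y = 1 ∧ M x y = 1
  · obtain ⟨x, hx, y, hy, hxv, hyv, hPx, hPy, h1, h2, h3⟩ := hE
    exact absurd (isP4_of hs h3 ((hs _ _).trans h2) hvb ((hs _ _).trans h1)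
      (h0 x hx b hb hxv hbv hPx hPb) (h0 y hy b hb hyv hbv hPy hPb)) (hf x hx y hy v hv b hb)
  · refine ⟨fun x => x ≠ v ∧ P x ∧ M v x = 0, 0, ⟨a, ha, hav, hPa, hva⟩,
      ⟨v, hv, fun h => h.1 rfl⟩, ?_⟩
    rintro x hx y hy ⟨hxv, hPx, h1⟩ hn
    by_cases hyv : y = v
    · rw [hyv, hs]; exact h1
    · by_cases hPy : P y
      · have h2 : M v y = 1 := z2' fun h => hn ⟨hyv, hPy, h⟩
        by_contra h3
        exact hE ⟨x, hx, y, hy, hxv, hyv, hPx, hPy, h1, h2, z2' h3⟩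
      · exact h0 x hx y hy hxv hyv hPx hPy

theorem step {M : X → X → ZMod 2} (hs : ∀ x y, M x y = M y x) {Y : Finset X} {v : X}
    (hf : Free M Y) (hv : v ∈ Y) (P : X → Prop)
    (h0 : ∀ x ∈ Y, ∀ y ∈ Y, x ≠ v → y ≠ v → P x → ¬ P y → M x y = 0)
    (hA : ∃ x ∈ Y, x ≠ v ∧ P x) (hB : ∃ x ∈ Y, x ≠ v ∧ ¬ P x) : Split M Y := by
  classical
  obtain ⟨x0, hx0, hx0v, hPx0⟩ := hA
  obtain ⟨y0, hy0, hy0v, hPy0⟩ := hB
  have h0' : ∀ x ∈ Y, ∀ y ∈ Y, x ≠ v → y ≠ v → ¬ P x → ¬ ¬ P y → M x y = 0 :=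
    fun x hx y hy hxv hyv hx' hy' => (hs _ _).trans (h0 y hy x hx hyv hxv (not_not.1 hy') hx')
  by_cases c1 : ∃ a ∈ Y, a ≠ v ∧ P a ∧ M v a = 1
  swap
  · refine ⟨fun x => x ≠ v ∧ P x, 0, ⟨x0, hx0, hx0v, hPx0⟩, ⟨v, hv, fun h => h.1 rfl⟩, ?_⟩
    rintro x hx y hy ⟨hxv, hPx⟩ hn
    by_cases hyv : y = v
    · rw [hyv, hs]
      by_contra h
      exact c1 ⟨x, hx, hxv, hPx, z2' h⟩
    · exact h0 x hx y hy hxv hyv hPx fun h => hn ⟨hyv, h⟩
  by_cases c2 : ∃ b ∈ Y, b ≠ v ∧ ¬ P b ∧ M v b = 1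
  swap
  · refine ⟨fun x => x ≠ v ∧ ¬ P x, 0, ⟨y0, hy0, hy0v, hPy0⟩, ⟨v, hv, fun h => h.1 rfl⟩, ?_⟩
    rintro x hx y hy ⟨hxv, hPx⟩ hn
    by_cases hyv : y = v
    · rw [hyv, hs]
      by_contra h
      exact c2 ⟨x, hx, hxv, hPx, z2' h⟩
    · exact h0' x hx y hy hxv hyv hPx fun h => hn ⟨hyv, h⟩
  obtain ⟨a1, ha1, ha1v, hPa1, hva1⟩ := c1
  obtain ⟨b1, hb1, hb1v, hPb1, hvb1⟩ := c2
  by_cases c3 : ∃ a ∈ Y, a ≠ v ∧ P a ∧ M v a = 0
  · obtain ⟨a, ha, hav, hPa, hva⟩ := c3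
    exact step_aux hs hf hv P h0 hb1 hb1v hPb1 hvb1 ha hav hPa hva
  by_cases c4 : ∃ a ∈ Y, a ≠ v ∧ ¬ P a ∧ M v a = 0
  · obtain ⟨a, ha, hav, hPa, hva⟩ := c4
    exact step_aux hs hf hv (fun x => ¬ P x) h0' ha1 ha1v (not_not.2 hPa1) hva1 ha hav hPa hva
  refine ⟨fun x => x = v, 1, ⟨v, hv, rfl⟩, ⟨x0, hx0, hx0v⟩, ?_⟩
  rintro x hx y hy rfl hyv
  refine z2' fun h => ?_
  by_cases hPy : P y
  · exact c3 ⟨y, hy, hyv, hPy, h⟩
  · exact c4 ⟨y, hy, hyv, hPy, h⟩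

/-- Seinsche: a set of at least two vertices without induced P4 splits. -/
theorem seinsche {M : X → X → ZMod 2} (hs : ∀ x y, M x y = M y x) :
    ∀ (n : ℕ) (Y : Finset X), Y.card = n → 2 ≤ n → Free M Y → Split M Y := by
  intro n
  induction n with
  | zero => intro Y _ h; omega
  | succ n ih =>
    intro Y hY h2 hf
    have hne : Y.Nonempty := by rw [← Finset.card_pos]; omega
    obtain ⟨v, hv⟩ := hne
    have hc : (Y.erase v).card = n := by rw [Finset.card_erase_of_mem hv, hY]; rfl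
    rcases Nat.lt_or_ge n 2 with h | h
    · -- one other vertex
      have h1 : (Y.erase v).card = 1 := by omega
      obtain ⟨y, hy⟩ := Finset.card_eq_one.1 h1
      have hyY : y ∈ Y.erase v := by rw [hy]; simp
      have hyv : y ≠ v := (Finset.mem_erase.1 hyY).1
      refine ⟨fun x => x = v, M v y, ⟨v, hv, rfl⟩, ⟨y, (Finset.mem_erase.1 hyY).2, hyv⟩, ?_⟩
      rintro x hx z hz rfl hzv
      have : z ∈ Y.erase x := Finset.mem_erase.2 ⟨hzv, hz⟩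
      rw [hy, Finset.mem_singleton] at this
      rw [this]
    · obtain ⟨P, s, ⟨x, hx, hPx⟩, ⟨y, hy, hPy⟩, h3⟩ :=
        ih (Y.erase v) hc h (hf.mono (Finset.erase_subset _ _))
      have hx' := Finset.mem_erase.1 hx
      have hy' := Finset.mem_erase.1 hy
      have h0 : ∀ x ∈ Y, ∀ y ∈ Y, x ≠ v → y ≠ v → P x → ¬ P y → M x y = s :=
        fun x hx y hy hxv hyv => h3 x (Finset.mem_erase.2 ⟨hxv, hx⟩) y
          (Finset.mem_erase.2 ⟨hyv, hy⟩)
      rcases z2 s with rfl | rfl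
      · exact step hs hf hv P h0 ⟨x, hx'.2, hx'.1, hPx⟩ ⟨y, hy'.2, hy'.1, hPy⟩
      · refine split_of_co (step (co_symm hs) (hf.co hs) hv P ?_ ⟨x, hx'.2, hx'.1, hPx⟩
          ⟨y, hy'.2, hy'.1, hPy⟩)
        exact fun x hx y hy hxv hyv h4 h5 => co_zero.2 (h0 x hx y hy hxv hyv h4 h5)

/-- `g` is a midpoint of `u, v` seen from `Y`. -/
def Mid (M : X → X → ZMod 2) (Y : Finset X) (u v g : X) : Prop :=
  M g g = M u v ∧ M g u = M u v ∧ M g v = M u v ∧ ∀ w ∈ Y, M w u = M w v → M w g = M w u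

/-- Closed pairs of `Y` have midpoints in `Y`. -/
def PairsIn (M : X → X → ZMod 2) (Y : Finset X) : Prop :=
  ∀ u ∈ Y, ∀ v ∈ Y, M u u = M v v → M u v ≠ M u u → ∃ g ∈ Y, Mid M Y u v g

theorem PairsIn.co {M : X → X → ZMod 2} {Y : Finset X} (h : PairsIn M Y) :
    PairsIn (co M) Y := by
  intro u hu v hv h1 h2
  obtain ⟨g, hg, h3, h4, h5, h6⟩ := h u hu v hv (co_eq.1 h1) (fun h => h2 (co_eq.2 h))
  exact ⟨g, hg, co_eq.2 h3, co_eq.2 h4, co_eq.2 h5,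
    fun w hw h => co_eq.2 (h6 w hw (co_eq.1 h))⟩

/-- `Y` has a root. -/
def Root (M : X → X → ZMod 2) (Y : Finset X) : Prop :=
  ∃ r ∈ Y, ∃ s, ∀ x ∈ Y, M r x = s

theorem root_of_co {M : X → X → ZMod 2} {Y : Finset X} (h : Root (co M) Y) : Root M Y := by
  obtain ⟨r, hr, s, h⟩ := h
  refine ⟨r, hr, 1 + s, fun x hx => ?_⟩
  rw [← h x hx]
  have : ∀ m : ZMod 2, m = 1 + (1 + m) := by decide
  exact this _

/-- Without a root, a part of a disconnected set contains its midpoints. -/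
theorem pairs_part {M : X → X → ZMod 2} (hs : ∀ x y, M x y = M y x) {Y : Finset X}
    (hp : PairsIn M Y) (P : X → Prop) [DecidablePred P]
    (h0 : ∀ x ∈ Y, ∀ y ∈ Y, P x → ¬ P y → M x y = 0)
    (hno : ¬ Root M Y) : PairsIn M (Y.filter P) := by
  intro u hu v hv h1 h2
  obtain ⟨huY, hPu⟩ := Finset.mem_filter.1 hu
  obtain ⟨hvY, hPv⟩ := Finset.mem_filter.1 hv
  obtain ⟨g, hg, h3, h4, h5, h6⟩ := hp u huY v hvY h1 h2
  by_cases hPg : P g
  · exact ⟨g, Finset.mem_filter.2 ⟨hg, hPg⟩, h3, h4, h5,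
      fun w hw => h6 w (Finset.mem_filter.1 hw).1⟩
  · refine absurd ⟨g, hg, 0, fun x hx => ?_⟩ hno
    by_cases hPx : P x
    · exact (hs _ _).trans (h0 x hx g hg hPx hPg)
    · have e1 : M x u = 0 := (hs _ _).trans (h0 u huY x hx hPu hPx)
      have e2 : M x v = 0 := (hs _ _).trans (h0 v hvY x hx hPv hPx)
      rw [hs, h6 x hx (e1.trans e2.symm), e1]

theorem root_step {M : X → X → ZMod 2} (hs : ∀ x y, M x y = M y x) {Y : Finset X}
    (hp : PairsIn M Y) (P : X → Prop)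
    (hA : ∃ x ∈ Y, P x) (hB : ∃ x ∈ Y, ¬ P x)
    (h0 : ∀ x ∈ Y, ∀ y ∈ Y, P x → ¬ P y → M x y = 0)
    (ih : ∀ Z : Finset X, Z ⊂ Y → Z.Nonempty → PairsIn M Z → Root M Z) : Root M Y := by
  classical
  by_contra hno
  obtain ⟨x0, hx0, hPx0⟩ := hA
  obtain ⟨y0, hy0, hPy0⟩ := hB
  have h0' : ∀ x ∈ Y, ∀ y ∈ Y, ¬ P x → ¬ ¬ P y → M x y = 0 :=
    fun x hx y hy hx' hy' => (hs _ _).trans (h0 y hy x hx (not_not.1 hy') hx')
  have s1 : Y.filter P ⊂ Y := by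
    rw [Finset.ssubset_iff_of_subset (Finset.filter_subset _ _)]
    exact ⟨y0, hy0, fun h => hPy0 (Finset.mem_filter.1 h).2⟩
  have s2 : Y.filter (fun x => ¬ P x) ⊂ Y := by
    rw [Finset.ssubset_iff_of_subset (Finset.filter_subset _ _)]
    exact ⟨x0, hx0, fun h => (Finset.mem_filter.1 h).2 hPx0⟩
  obtain ⟨r1, hr1, t1, h1⟩ := ih _ s1 ⟨x0, Finset.mem_filter.2 ⟨hx0, hPx0⟩⟩
    (pairs_part hs hp P h0 hno)
  obtain ⟨r2, hr2, t2, h2⟩ := ih _ s2 ⟨y0, Finset.mem_filter.2 ⟨hy0, hPy0⟩⟩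
    (pairs_part hs hp (fun x => ¬ P x) h0' hno)
  obtain ⟨hr1Y, hPr1⟩ := Finset.mem_filter.1 hr1
  obtain ⟨hr2Y, hPr2⟩ := Finset.mem_filter.1 hr2
  rcases z2 t1 with rfl | rfl
  · refine hno ⟨r1, hr1Y, 0, fun x hx => ?_⟩
    by_cases hPx : P x
    · exact h1 x (Finset.mem_filter.2 ⟨hx, hPx⟩)
    · exact h0 r1 hr1Y x hx hPr1 hPx
  rcases z2 t2 with rfl | rfl
  · refine hno ⟨r2, hr2Y, 0, fun x hx => ?_⟩
    by_cases hPx : P x
    · exact h0' r2 hr2Y x hx hPr2 (not_not.2 hPx)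
    · exact h2 x (Finset.mem_filter.2 ⟨hx, hPx⟩)
  have e12 : M r1 r2 = 0 := h0 r1 hr1Y r2 hr2Y hPr1 hPr2
  obtain ⟨g, hg, h3, h4, h5, h6⟩ := hp r1 hr1Y r2 hr2Y ((h1 r1 hr1).trans (h2 r2 hr2).symm)
    (by rw [e12, h1 r1 hr1]; decide)
  by_cases hPg : P g
  · have := h1 g (Finset.mem_filter.2 ⟨hg, hPg⟩)
    rw [hs, h4, e12] at this
    exact absurd this (by decide)
  · have := h2 g (Finset.mem_filter.2 ⟨hg, hPg⟩)
    rw [hs, h5, e12] at this
    exact absurd this (by decide)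

/-- **Lemma R.** -/
theorem root {M : X → X → ZMod 2} (hs : ∀ x y, M x y = M y x) :
    ∀ (Y : Finset X), Y.Nonempty → Free M Y → PairsIn M Y → Root M Y := by
  intro Y
  induction Y using Finset.strongInduction with
  | H Y ih =>
    intro hne hf hp
    rcases Nat.lt_or_ge Y.card 2 with h | h
    · have h1 : Y.card = 1 := by
        have := Finset.card_pos.2 hne
        omega
      obtain ⟨r, hr⟩ := Finset.card_eq_one.1 h1
      refine ⟨r, by rw [hr]; simp, M r r, fun x hx => ?_⟩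
      rw [hr, Finset.mem_singleton] at hx
      rw [hx]
    · obtain ⟨P, s, hA, hB, h0⟩ := seinsche hs Y.card Y rfl h hf
      rcases z2 s with rfl | rfl
      · exact root_step hs hp P hA hB h0 fun Z hZ hZ' hZp => ih Z hZ hZ' (hf.mono hZ.1) hZp
      · refine root_of_co (root_step (co_symm hs) hp.co P hA hB
          (fun x hx y hy h1 h2 => co_zero.2 (h0 x hx y hy h1 h2)) fun Z hZ hZ' hZp => ?_)
        have hZp' : PairsIn M Z := by
          have := hZp.co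
          rwa [co_co] at this
        apply root_of_co (M := co M)
        rw [co_co]
        exact ih Z hZ hZ' (hf.mono hZ.1) hZp'

end Pool.Agent.H38.P3
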