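import Mathlib
import Pool.Agent.H38.P3.Root

/-!
The minimal cell (helper38; proofs of helper65 and helper3): lower and upper roots of induced P4s.
-/

namespace Pool.Agent.H38.P3

set_option linter.unusedSectionVars false

variable {X : Type} [Fintype X] [DecidableEq X]

/-- The minimal cell: strict pairs, and a vertex constant on an induced P4 is constant. -/
structure MinCell (M : X → X → ZMod 2) : Prop where
  symm : ∀ x y, M x y = M y x
  pairs : ∀ u v, M u u = M v v → M u v ≠ M u u →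
    ∃ g, M g g = M u v ∧ M g u = M u v ∧ M g v = M u v ∧ ∀ w, M w u = M w v → M w g = M w u
  const : ∀ a b c d, IsP4 M a b c d → ∀ (y : X) (s : ZMod 2), M y a = s → M y b = s →
    M y c = s → M y d = s → ∀ x, M y x = s

theorem MinCell.co {M : X → X → ZMod 2} (h : MinCell M) : MinCell (co M) where
  symm := co_symm h.symm
  pairs := by
    intro u v h1 h2
    obtain ⟨g, h3, h4, h5, h6⟩ := h.pairs u v (co_eq.1 h1) (fun h => h2 (co_eq.2 h))
    exact ⟨g, co_eq.2 h3, co_eq.2 h4, co_eq.2 h5, fun w h => co_eq.2 (h6 w (co_eq.1 h))⟩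
  const := by
    intro a b c d hP y s h1 h2 h3 h4 x
    have hP' : IsP4 M c a d b := hP.of_co h.symm
    have e : ∀ m s : ZMod 2, 1 + m = s ↔ m = 1 + s := by decide
    exact (e _ _).2 (h.const c a d b hP' y (1 + s) ((e _ _).1 h3) ((e _ _).1 h1)
      ((e _ _).1 h4) ((e _ _).1 h2) x)

/-- A proper convex set has a root. -/
theorem MinCell.root {M : X → X → ZMod 2} (h : MinCell M) (Y : Finset X) (hne : Y.Nonempty)
    (hconv : ∀ u ∈ Y, ∀ v ∈ Y, ∀ g, (∀ w, M w u = M w v → M w g = M w u) → g ∈ Y)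
    (y0 : X) (s0 : ZMod 2) (h1 : ∀ x ∈ Y, M y0 x = s0) (x1 : X) (h2 : M y0 x1 ≠ s0) :
    Root M Y := by
  refine P3.root h.symm Y hne ?_ ?_
  · intro a ha b hb c hc d hd hP
    exact h2 (h.const a b c d hP y0 s0 (h1 a ha) (h1 b hb) (h1 c hc) (h1 d hd) x1)
  · intro u hu v hv h3 h4
    obtain ⟨g, h5, h6, h7, h8⟩ := h.pairs u v h3 h4
    exact ⟨g, hconv u hu v hv g h8, h5, h6, h7, fun w _ => h8 w⟩

theorem agree {M : X → X → ZMod 2} {u v g w : X} {s : ZMod 2}
    (hg : ∀ w, M w u = M w v → M w g = M w u) (h1 : M w u = s) (h2 : M w v = s) : M w g = s :=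
  (hg w (h1.trans h2.symm)).trans h1

/-- (R1), upper form. -/
theorem MinCell.plus {M : X → X → ZMod 2} (h : MinCell M) (y : X) (h1 : ∃ x, M y x = 1)
    (h0 : ∃ x, M y x = 0) : ∃ p, M y p = 1 ∧ ∀ x, M y x = 1 → M p x = 1 := by
  obtain ⟨x1, hx1⟩ := h1
  obtain ⟨x0, hx0⟩ := h0
  obtain ⟨r, hr, s, hrs⟩ := h.root (Finset.univ.filter fun x => M y x = 1)
    ⟨x1, by simp [hx1]⟩
    (fun u hu v hv g hg => by
      simp only [Finset.mem_filter, Finset.mem_univ, true_and] at hu hv ⊢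
      exact agree hg hu hv)
    y 1 (fun x hx => by simpa using hx) x0 (by rw [hx0]; decide)
  simp only [Finset.mem_filter, Finset.mem_univ, true_and] at hr hrs
  refine ⟨r, hr, fun x hx => ?_⟩
  rcases z2 s with rfl | rfl
  swap
  · exact hrs x hx
  exfalso
  rcases z2 (M y y) with hy | hy
  · -- closed pair y, r of colour 0
    obtain ⟨g, h3, h4, h5, h6⟩ := h.pairs y r (hy.trans (hrs r hr).symm)
      (by rw [hr, hy]; decide)
    have e1 : M y g = 1 := (h.symm _ _).trans (h4.trans hr)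
    have e2 : M r g = 1 := (h.symm _ _).trans (h5.trans hr)
    rw [hrs g e1] at e2
    exact absurd e2 (by decide)
  · have := hrs y hy
    rw [h.symm, hr] at this
    exact absurd this (by decide)

/-- (R1), lower form. -/
theorem MinCell.minus {M : X → X → ZMod 2} (h : MinCell M) (y : X) (h1 : ∃ x, M y x = 1)
    (h0 : ∃ x, M y x = 0) : ∃ p, M y p = 0 ∧ ∀ x, M y x = 0 → M p x = 0 := by
  obtain ⟨x1, hx1⟩ := h1
  obtain ⟨x0, hx0⟩ := h0
  obtain ⟨p, hp, hp'⟩ := h.co.plus y ⟨x0, co_one.2 hx0⟩ ⟨x1, co_zero.2 hx1⟩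
  exact ⟨p, co_one.1 hp, fun x hx => co_one.1 (hp' x (co_one.2 hx))⟩

/-- The set `D*` of `a - b - c`. -/
def Dst (M : X → X → ZMod 2) (a b c : X) : Finset X :=
  Finset.univ.filter fun x => M x c = 1 ∧ M x a = 0 ∧ M x b = 0

theorem mem_Dst {M : X → X → ZMod 2} {a b c x : X} :
    x ∈ Dst M a b c ↔ M x c = 1 ∧ M x a = 0 ∧ M x b = 0 := by
  simp [Dst]

theorem MinCell.rootD {M : X → X → ZMod 2} (h : MinCell M) {a b c d : X} (hP : IsP4 M a b c d) :
    ∃ r, M r c = 1 ∧ M r a = 0 ∧ M r b = 0 ∧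
      ∃ s, ∀ x, M x c = 1 → M x a = 0 → M x b = 0 → M r x = s := by
  obtain ⟨-, e1, e2, e3, e4, e5, e6⟩ := hP
  obtain ⟨r, hr, s, hrs⟩ := h.root (Dst M a b c)
    ⟨d, mem_Dst.2 ⟨(h.symm _ _).trans e3, (h.symm _ _).trans e5, (h.symm _ _).trans e6⟩⟩
    (fun u hu v hv g hg => by
      rw [mem_Dst] at hu hv ⊢
      refine ⟨?_, ?_, ?_⟩
      · rw [h.symm]; exact agree hg ((h.symm _ _).trans hu.1) ((h.symm _ _).trans hv.1)
      · rw [h.symm]; exact agree hg ((h.symm _ _).trans hu.2.1) ((h.symm _ _).trans hv.2.1)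
      · rw [h.symm]; exact agree hg ((h.symm _ _).trans hu.2.2) ((h.symm _ _).trans hv.2.2))
    c 1 (fun x hx => (h.symm _ _).trans (mem_Dst.1 hx).1) a
    (by rw [h.symm, e4]; decide)
  obtain ⟨h1, h2, h3⟩ := mem_Dst.1 hr
  exact ⟨r, h1, h2, h3, s, fun x h4 h5 h6 => hrs x (mem_Dst.2 ⟨h4, h5, h6⟩)⟩

/-- `B*` has a root: the set `x ~ a, c`, `x not ~ d`. -/
theorem MinCell.rootB {M : X → X → ZMod 2} (h : MinCell M) {a b c d : X} (hP : IsP4 M a b c d) :
    ∃ r, M r a = 1 ∧ M r c = 1 ∧ M r d = 0 ∧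
      ∃ s, ∀ x, M x a = 1 → M x c = 1 → M x d = 0 → M r x = s := by
  obtain ⟨r, h1, h2, h3, s, h4⟩ := h.co.rootD (hP.co h.symm)
  have e : ∀ m s : ZMod 2, 1 + m = s ↔ m = 1 + s := by decide
  exact ⟨r, co_zero.1 h3, co_zero.1 h2, co_one.1 h1, 1 + s, fun x h5 h6 h7 =>
    (e _ _).1 (h4 x (co_one.2 h7) (co_zero.2 h6) (co_zero.2 h5))⟩

/-- **(i)**, helper65: the root of `D*` has type 0. -/
theorem MinCell.typeD {M : X → X → ZMod 2} (h : MinCell M) {a b c d : X} (hP : IsP4 M a b c d)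
    (hd : ∀ x, M x c = 1 → M x a = 0 → M x b = 0 → M d x = 1) : False := by
  have hs := h.symm
  obtain ⟨-, e1, e2, e3, e4, e5, e6⟩ := id hP
  have hdd : M d d = 1 := hd d ((hs _ _).trans e3) ((hs _ _).trans e5) ((hs _ _).trans e6)
  by_cases hz : ∃ z, ∀ x, M z x = 0
  · -- case B: a zero vertex, so no all-ones vertex
    obtain ⟨z, hz⟩ := hz
    have hno : ∀ p, ¬ ∀ x, M p x = 1 := fun p hp => by
      have := hp z
      rw [hs, hz] at this
      exact absurd this (by decide)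
    obtain ⟨b', h1, h2, h3, s, h4⟩ := h.rootB hP
    have hP' : IsP4 M a b' c d := isP4_of hs ((hs _ _).trans h1) h2 e3 e4 e5 h3
    rcases z2 s with rfl | rfl
    · obtain ⟨p, hp1, hp2⟩ := h.plus b' ⟨a, h1⟩ ⟨d, h3⟩
      have hpd : M p d = 1 := z2' fun h5 => by
        have := h4 p (hp2 a h1) (hp2 c h2) h5
        rw [hp1] at this
        exact absurd this (by decide)
      exact hno p (h.const a b' c d hP' p 1 (hp2 a h1) ((hs _ _).trans hp1) (hp2 c h2) hpd)
    · have hb'b' : M b' b' = 1 := h4 b' h1 h2 h3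
      obtain ⟨g, g1, g2, g3, g4⟩ := h.pairs b' d (hb'b'.trans hdd.symm)
        (by rw [h3, hb'b']; decide)
      rw [h3] at g1 g2 g3
      have hcg : M c g = 1 := agree g4 ((hs _ _).trans h2) e3
      have hgc : M g c = 1 := (hs _ _).trans hcg
      have hga : M g a = 0 := z2'' fun h5 => by
        have := h4 g h5 hgc g3
        rw [hs, g2] at this
        exact absurd this (by decide)
      have hgb : M g b = 1 := z2' fun h5 => by
        have := hd g hgc hga h5
        rw [hs, g3] at this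
        exact absurd this (by decide)
      have hb'b : M b' b = 1 := h4 b ((hs _ _).trans e1) e2 e6
      have hP2 : IsP4 M a b' c g := isP4_of hs ((hs _ _).trans h1) h2 hcg e4
        ((hs _ _).trans hga) ((hs _ _).trans g2)
      have := h.const a b' c g hP2 b 1 ((hs _ _).trans e1) ((hs _ _).trans hb'b) e2
        ((hs _ _).trans hgb) d
      rw [e6] at this
      exact absurd this (by decide)
  · obtain ⟨p, hp1, hp2⟩ := h.minus d ⟨c, (hs _ _).trans e3⟩ ⟨a, (hs _ _).trans e5⟩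
    have hpa : M p a = 0 := hp2 a ((hs _ _).trans e5)
    have hpb : M p b = 0 := hp2 b ((hs _ _).trans e6)
    have hpc : M p c = 0 := z2'' fun h5 => by
      have := hd p h5 hpa hpb
      rw [hp1] at this
      exact absurd this (by decide)
    exact hz ⟨p, h.const a b c d hP p 0 hpa hpb hpc ((hs _ _).trans hp1)⟩

/-- The type 0 root of `D*`. -/
theorem MinCell.lowRoot {M : X → X → ZMod 2} (h : MinCell M) {a b c d : X}
    (hP : IsP4 M a b c d) :
    ∃ r, M r c = 1 ∧ M r a = 0 ∧ M r b = 0 ∧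
      ∀ x, M x c = 1 → M x a = 0 → M x b = 0 → M r x = 0 := by
  obtain ⟨r, h1, h2, h3, s, h4⟩ := h.rootD hP
  rcases z2 s with rfl | rfl
  · exact ⟨r, h1, h2, h3, h4⟩
  · obtain ⟨-, e1, e2, e3, e4, e5, e6⟩ := hP
    exact absurd h4 fun h4 => h.typeD (isP4_of h.symm e1 e2 ((h.symm _ _).trans h1) e4
      ((h.symm _ _).trans h2) ((h.symm _ _).trans h3)) h4

/-- **(ii)**, helper3 (with the reduction of helper66): the lower root. -/
theorem MinCell.low {M : X → X → ZMod 2} (h : MinCell M) {a b c d : X}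
    (hP : IsP4 M a b c d) : ∃ r, Low M a b c d r := by
  have hs := h.symm
  obtain ⟨r, h1, h2, h3, h4⟩ := h.lowRoot hP
  refine ⟨r, h1, h2, h3, h4 r h1 h2 h3, h4, fun y hy => ?_⟩
  obtain ⟨-, e1, e2, e3, e4, e5, e6⟩ := id hP
  have hrd : M r d = 0 := h4 d ((hs _ _).trans e3) ((hs _ _).trans e5) ((hs _ _).trans e6)
  have hdr : M d r = 0 := (hs _ _).trans hrd
  have hda : M d a = 0 := (hs _ _).trans e5
  have hdb : M d b = 0 := (hs _ _).trans e6
  have hdc : M d c = 1 := (hs _ _).trans e3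
  by_contra hdy
  have hdy : M d y = 0 := z2'' hdy
  have hyd : M y d = 0 := (hs _ _).trans hdy
  have hyr : M y r = 1 := (hs _ _).trans hy
  have har : M a r = 0 := (hs _ _).trans h2
  have hbr : M b r = 0 := (hs _ _).trans h3
  have hcr : M c r = 1 := (hs _ _).trans h1
  have hPr : IsP4 M a b c r := isP4_of hs e1 e2 hcr e4 har hbr
  have h01 : ∀ m : ZMod 2, m = 0 → m = 1 → False := by decide
  rcases z2 (M y b) with hb | hb
  · rcases z2 (M y a) with ha | ha
    · rcases z2 (M y c) with hc | hc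
      · exact h01 _ (h.const a b c d hP y 0 ha hb hc hyd r) hyr
      · exact h01 _ (h4 y hc ha hb) hy
    · -- b - a - y - r
      have hQ : IsP4 M b a y r := isP4_of hs ((hs _ _).trans e1) ((hs _ _).trans ha) hyr
        ((hs _ _).trans hb) hbr har
      exact h01 _ (h.const b a y r hQ d 0 hdb hda hdy hdr c) hdc
  · rcases z2 (M y a) with ha | ha
    · -- a - b - y - r
      have hQ : IsP4 M a b y r := isP4_of hs e1 ((hs _ _).trans hb) hyr
        ((hs _ _).trans ha) har hbr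
      exact h01 _ (h.const a b y r hQ d 0 hda hdb hdy hdr c) hdc
    · rcases z2 (M y c) with hc | hc
      swap
      · exact h01 _ hyd (h.const a b c r hPr y 1 ha hb hc hyr d)
      · -- y sees a, b, r and neither c nor d
        obtain ⟨l, k1, k2, k3, k4⟩ := h.lowRoot (hP.rev hs)
        -- `l ~ b`, `l` not `~ d, c`; it sees nothing of `x ~ b`, `x` not `~ d, c`
        have hla : M l a = 0 := k4 a e1 e5 e4
        have hly : M l y = 0 := k4 y hb hyd hc
        have hQ : IsP4 M y r c d := isP4_of hs hyr h1 e3 hc hyd hrd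
        have hlr : M l r = 1 := z2' fun h5 =>
          h01 _ (h.const y r c d hQ l 0 hly h5 k3 k2 b) k1
        have hQ2 : IsP4 M d c r l := isP4_of hs hdc hcr ((hs _ _).trans hlr) hdr
          ((hs _ _).trans k2) ((hs _ _).trans k3)
        exact h01 _ (h.const d c r l hQ2 a 0 e5 e4 har ((hs _ _).trans hla) b) e1

/-- The upper root, by complement. -/
theorem MinCell.upp {M : X → X → ZMod 2} (h : MinCell M) {a b c d : X}
    (hP : IsP4 M a b c d) : ∃ r, Upp M a b c d r := by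
  obtain ⟨r, h1, h2, h3, h4, h5, h6⟩ := h.co.low (hP.co h.symm)
  refine ⟨r, co_zero.1 h3, co_zero.1 h2, co_one.1 h1, co_zero.1 h4,
    fun x k1 k2 k3 => co_zero.1 (h5 x (co_one.2 k3) (co_zero.2 k2) (co_zero.2 k1)), ?_⟩
  intro x hx
  refine z2' fun hr => ?_
  have := co_one.1 (h6 x (co_one.2 hr))
  rw [hx] at this
  exact absurd this (by decide)

/-- A minimal cell with an induced P4 has one without a bad vertex. -/
theorem MinCell.good {M : X → X → ZMod 2} (h : MinCell M) (hP : ∃ a b c d, IsP4 M a b c d) :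
    ∃ a b c d, IsP4 M a b c d ∧ ∀ w, ¬ Bad M a b c d w :=
  exists_good M h.symm (fun _ _ _ _ hq => h.low hq) (fun _ _ _ _ hq => h.upp hq) hP

end Pool.Agent.H38.P3
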