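import Mathlib
import Pool.Agent.H38.P3.Cell

/-!
The abstract P4 lemma for looped graphs in which closed pairs have midpoints (helper38, after
helper73, helper68, helper65, helper66, helper3, helper87): if there is an induced P4, there is
one without a bad vertex among the vertices that agree with it wherever it is constant.
-/

namespace Pool.Agent.H38.P3

set_option linter.unusedSectionVars false

/-- `w` agrees with `a, b, c, d` wherever these four agree. -/
def InCell {V : Type} (M : V → V → ZMod 2) (a b c d w : V) : Prop :=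
  ∀ y, M a y = M b y → M a y = M c y → M a y = M d y → M w y = M a y

section strict

variable {V : Type} [Fintype V] [DecidableEq V]

open Classical in
/-- The cell of `a, b, c, d`. -/
noncomputable def cell (M : V → V → ZMod 2) (q : V × V × V × V) : Finset V :=
  Finset.univ.filter fun w => InCell M q.1 q.2.1 q.2.2.1 q.2.2.2 w

theorem mem_cell {M : V → V → ZMod 2} {q : V × V × V × V} {w : V} :
    w ∈ cell M q ↔ InCell M q.1 q.2.1 q.2.2.1 q.2.2.2 w := by
  simp [cell]

/-- Strict version. -/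
theorem p3_strict (M : V → V → ZMod 2) (hs : ∀ x y, M x y = M y x)
    (hp : ∀ u v, M u u = M v v → M u v ≠ M u u →
      ∃ g, M g g = M u v ∧ M g u = M u v ∧ M g v = M u v ∧ ∀ w, M w u = M w v → M w g = M w u)
    (hP : ∃ a b c d, IsP4 M a b c d) :
    ∃ a b c d, IsP4 M a b c d ∧ ∀ w, InCell M a b c d w → ¬ Bad M a b c d w := by
  classical
  obtain ⟨q, hq, hmin⟩ :
      ∃ q : V × V × V × V, IsP4 M q.1 q.2.1 q.2.2.1 q.2.2.2 ∧
        ∀ p : V × V × V × V, IsP4 M p.1 p.2.1 p.2.2.1 p.2.2.2 →
          (cell M q).card ≤ (cell M p).card := by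
    obtain ⟨a, b, c, d, h⟩ := hP
    have hne : (Finset.univ.filter fun q : V × V × V × V =>
        IsP4 M q.1 q.2.1 q.2.2.1 q.2.2.2).Nonempty := ⟨(a, b, c, d), by simpa using h⟩
    obtain ⟨q, hq, hm⟩ := Finset.exists_min_image _
      (fun q : V × V × V × V => (cell M q).card) hne
    exact ⟨q, by simpa using hq, fun p hp => hm p (by simpa using hp)⟩
  obtain ⟨a, b, c, d⟩ := q
  simp only at hq
  -- P4s inside the cell have the same cell
  have hsub : ∀ a' b' c' d', IsP4 M a' b' c' d' → a' ∈ cell M (a, b, c, d) →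
      b' ∈ cell M (a, b, c, d) → c' ∈ cell M (a, b, c, d) → d' ∈ cell M (a, b, c, d) →
      cell M (a', b', c', d') = cell M (a, b, c, d) := by
    intro a' b' c' d' h ha hb hc hd
    refine Finset.eq_of_subset_of_card_le ?_ (hmin (a', b', c', d') h)
    intro w hw
    rw [mem_cell] at hw ha hb hc hd ⊢
    intro y h1 h2 h3
    have e1 := ha y h1 h2 h3
    have e2 := hb y h1 h2 h3
    have e3 := hc y h1 h2 h3
    have e4 := hd y h1 h2 h3
    simp only at e1 e2 e3 e4
    exact (hw y (e1.trans e2.symm) (e1.trans e3.symm) (e1.trans e4.symm)).trans e1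
  let N : {x // x ∈ cell M (a, b, c, d)} → {x // x ∈ cell M (a, b, c, d)} → ZMod 2 :=
    fun x y => M x.1 y.1
  have toM : ∀ x y z w, IsP4 N x y z w → IsP4 M x.1 y.1 z.1 w.1 := fun x y z w h =>
    isP4_of hs h.2.1 h.2.2.1 h.2.2.2.1 h.2.2.2.2.1 h.2.2.2.2.2.1 h.2.2.2.2.2.2
  have hmc : MinCell N := by
    refine ⟨fun x y => hs _ _, ?_, ?_⟩
    · intro u v h1 h2
      obtain ⟨g, h3, h4, h5, h6⟩ := hp u.1 v.1 h1 h2
      have hg : g ∈ cell M (a, b, c, d) := by
        have hu := u.2
        have hv := v.2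
        rw [mem_cell] at hu hv ⊢
        intro y k1 k2 k3
        have e1 := hu y k1 k2 k3
        have e2 := hv y k1 k2 k3
        simp only at e1 e2
        rw [hs g y, h6 y (by rw [hs y u.1, hs y v.1, e1, e2]), hs y u.1]
        exact e1
      exact ⟨⟨g, hg⟩, h3, h4, h5, fun w hw => h6 w.1 hw⟩
    · intro a' b' c' d' h y s k1 k2 k3 k4 x
      have hP' := toM a' b' c' d' h
      have hx : x.1 ∈ cell M (a'.1, b'.1, c'.1, d'.1) := by
        have := x.2
        exact (hsub _ _ _ _ hP' a'.2 b'.2 c'.2 d'.2).symm ▸ this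
      rw [mem_cell] at hx
      have j1 : M a'.1 y.1 = s := (hs _ _).trans k1
      have j2 : M b'.1 y.1 = s := (hs _ _).trans k2
      have j3 : M c'.1 y.1 = s := (hs _ _).trans k3
      have j4 : M d'.1 y.1 = s := (hs _ _).trans k4
      exact (hs _ _).trans ((hx y.1 (j1.trans j2.symm) (j1.trans j3.symm)
        (j1.trans j4.symm)).trans j1)
  have ha : a ∈ cell M (a, b, c, d) := mem_cell.2 fun y _ _ _ => rfl
  have hb : b ∈ cell M (a, b, c, d) := mem_cell.2 fun y h _ _ => h.symm
  have hc : c ∈ cell M (a, b, c, d) := mem_cell.2 fun y _ h _ => h.symm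
  have hd : d ∈ cell M (a, b, c, d) := mem_cell.2 fun y _ _ h => h.symm
  obtain ⟨a', b', c', d', h1, h2⟩ := hmc.good ⟨⟨a, ha⟩, ⟨b, hb⟩, ⟨c, hc⟩, ⟨d, hd⟩,
    isP4_of (M := N) (fun x y => hs _ _) hq.2.1 hq.2.2.1 hq.2.2.2.1 hq.2.2.2.2.1
      hq.2.2.2.2.2.1 hq.2.2.2.2.2.2⟩
  refine ⟨a'.1, b'.1, c'.1, d'.1, toM _ _ _ _ h1, fun w hw hbad => ?_⟩
  have hw' : w ∈ cell M (a, b, c, d) := by
    rw [← hsub _ _ _ _ (toM _ _ _ _ h1) a'.2 b'.2 c'.2 d'.2, mem_cell]
    exact hw
  exact h2 ⟨w, hw'⟩ hbad

end strict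

section withE

variable {V : Type} [Fintype V] [DecidableEq V]

/-- `M` with an additional zero row. -/
def ext (M : V → V → ZMod 2) : Option V → Option V → ZMod 2
  | some x, some y => M x y
  | _, _ => 0

theorem p3 (M : V → V → ZMod 2) (hs : ∀ x y, M x y = M y x)
    (hp : ∀ x y, x ≠ y → M x x = M y y → M x y ≠ M x x →
      (∃ g, M g g = M x y ∧ M g x = M x y ∧ M g y = M x y ∧
        ∀ w, M w x = M w y → M w g = M w x) ∨
      (M x y = 0 ∧ ∀ w, M w x = M w y → M w x = 0))
    (hP : ∃ a b c d, IsP4 M a b c d) :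
    ∃ a b c d, IsP4 M a b c d ∧ ∀ w, InCell M a b c d w → ¬ Bad M a b c d w := by
  have hs' : ∀ x y, ext M x y = ext M y x := by
    intro x y
    cases x <;> cases y <;> simp [ext, hs]
  have hp' : ∀ u v, ext M u u = ext M v v → ext M u v ≠ ext M u u →
      ∃ g, ext M g g = ext M u v ∧ ext M g u = ext M u v ∧ ext M g v = ext M u v ∧
        ∀ w, ext M w u = ext M w v → ext M w g = ext M w u := by
    intro u v h1 h2
    cases u with
    | none => exact absurd rfl h2
    | some u =>
      cases v with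
      | none => exact absurd h1.symm h2
      | some v =>
        have huv : u ≠ v := by rintro rfl; exact h2 rfl
        rcases hp u v huv h1 h2 with ⟨g, h3, h4, h5, h6⟩ | ⟨h3, h4⟩
        · refine ⟨some g, h3, h4, h5, ?_⟩
          intro w hw
          cases w with
          | none => rfl
          | some w => exact h6 w hw
        · refine ⟨none, h3.symm, h3.symm, h3.symm, ?_⟩
          intro w hw
          cases w with
          | none => rfl
          | some w => exact (h4 w hw).symm
  obtain ⟨a, b, c, d, h⟩ := hP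
  obtain ⟨a', b', c', d', h1, h2⟩ := p3_strict (ext M) hs' hp'
    ⟨some a, some b, some c, some d, isP4_of hs' h.2.1 h.2.2.1 h.2.2.2.1 h.2.2.2.2.1
      h.2.2.2.2.2.1 h.2.2.2.2.2.2⟩
  obtain ⟨-, f1, f2, f3, f4, f5, f6⟩ := id h1
  have h01 : (0 : ZMod 2) ≠ 1 := by decide
  cases a' with
  | none => exact absurd f1 h01
  | some a' =>
  cases b' with
  | none => exact absurd f1 h01
  | some b' =>
  cases c' with
  | none => exact absurd f2 h01
  | some c' =>
  cases d' with
  | none => exact absurd f3 h01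
  | some d' =>
  refine ⟨a', b', c', d', isP4_of hs f1 f2 f3 f4 f5 f6, fun w hw hbad => ?_⟩
  refine h2 (some w) ?_ hbad
  intro y k1 k2 k3
  cases y with
  | none => rfl
  | some y => exact hw y k1 k2 k3

end withE

end Pool.Agent.H38.P3
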