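import Mathlib
import Pool.Agent.H38.P3.Full
import Pool.Agent.H17.P3.Defs

/-!
helper17's matrix statement `P3` from `Pool.Agent.H38.P3.p3_strict`.
-/

namespace Pool.Agent.H38.P3

theorem official : Pool.Agent.H17.P3.P3 := by
  classical
  intro X _ M hs hp h4 a b c d hP
  have : Fintype X := Fintype.ofFinite X
  have h01 : ∀ m : ZMod 2, m = 0 → m = 1 → False := by decide
  have hp' : ∀ u v, M u u = M v v → M u v ≠ M u u →
      ∃ g, M g g = M u v ∧ M g u = M u v ∧ M g v = M u v ∧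
        ∀ w, M w u = M w v → M w g = M w u := by
    intro u v h1 h2
    obtain ⟨g, g1, g2, g3, g4⟩ := hp u v h1 h2
    have e : ∀ m n k : ZMod 2, m ≠ k → n ≠ k → m = n := by decide
    have hg : M g g = M u v := e _ _ _ g1 h2
    refine ⟨g, hg, g2.trans hg, g3.trans hg, fun w hw => ?_⟩
    rw [hs w g, hs w u]
    exact g4 w (by rw [hs u w, hs v w]; exact hw)
  obtain ⟨a, b, c, d, ⟨-, e1, e2, e3, e4, e5, e6⟩, hgood⟩ := p3_strict M hs hp'
    ⟨a, b, c, d, isP4_of hs hP.ab hP.bc hP.cd hP.ac hP.ad hP.bd⟩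
  have e12 : ∀ m : ZMod 2, m ≠ 0 → m = 1 := by decide
  have e21 : ∀ m : ZMod 2, m ≠ 1 → m = 0 := by decide
  -- the colours are 0110
  have ha : M a a = 0 := by
    refine e21 _ fun h => hgood a (fun y _ _ _ => rfl) ⟨?_, ?_⟩
    · rw [e1, e4]; decide
    · rw [h, e5]; decide
  have hb : M b b = 1 := by
    refine e12 _ fun h => hgood b (fun y h _ _ => h.symm) ⟨?_, ?_⟩
    · rw [h, e2]; decide
    · rw [hs b a, e1, e6]; decide
  have hc : M c c = 1 := by
    refine e12 _ fun h => hgood c (fun y _ h _ => h.symm) ⟨?_, ?_⟩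
    · rw [hs c b, e2, h]; decide
    · rw [hs c a, e4, e3]; decide
  have hd : M d d = 0 := by
    refine e21 _ fun h => hgood d (fun y _ _ h => h.symm) ⟨?_, ?_⟩
    · rw [hs d b, e6, hs d c, e3]; decide
    · rw [hs d a, e5, h]; decide
  obtain ⟨g, hg, hy⟩ := h4 a b c d ⟨e1, e2, e3, e4, e5, e6⟩ ha hb hc hd
  exact hgood g hy ⟨hg.2, hg.1⟩

end Pool.Agent.H38.P3
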